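import Mathlib
import Pool.Agent.Q191.MV.Vand

/-!
# Fields generated by integers with few large conjugates have small discriminant
-/

set_option autoImplicit false

open Finset Polynomial Module NumberField

namespace Pool.Agent.Q226.DF

section chain

variable {L : Type} [Field L] [Algebra ℚ L] [FiniteDimensional ℚ L]

/-- A subspace containing `1` and generating the algebra fills it after `dim` steps. -/
theorem pow_eq_top (W : Submodule ℚ L) (h1 : (1 : L) ∈ W)
    (hgen : Algebra.adjoin ℚ (W : Set L) = ⊤) : W ^ (finrank ℚ L) = ⊤ := by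
  have hmono : ∀ N : ℕ, W ^ N ≤ W ^ (N + 1) := by
    intro N x hx
    rw [pow_succ]
    have := Submodule.mul_mem_mul hx h1
    rwa [mul_one] at this
  have key : ∀ N : ℕ, N + 1 ≤ finrank ℚ (W ^ N : Submodule ℚ L) ∨ W ^ N = ⊤ := by
    intro N
    induction N with
    | zero =>
      left
      rw [pow_zero, zero_add, Submodule.one_eq_span, finrank_span_singleton one_ne_zero]
    | succ N ih =>
      rcases ih with ih | ih
      · by_cases h : W ^ N = W ^ (N + 1)
        · right
          have hst : ∀ m : ℕ, W ^ (N + m) = W ^ N := by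
            intro m
            induction m with
            | zero => rfl
            | succ m ihm => rw [← add_assoc, pow_succ, ihm, ← pow_succ, ← h]
          have hmul : ∀ x ∈ W ^ N, ∀ y ∈ W ^ N, x * y ∈ W ^ N := by
            intro x hx y hy
            have h2 := Submodule.mul_mem_mul hx hy
            rwa [← pow_add, hst] at h2
          have hle : W ≤ W ^ N := by
            intro x hx
            have h2 : x ∈ W ^ (N + 1) := by
              rw [pow_succ]
              have h3 : (1 : L) ∈ W ^ N := by
                have : ∀ n : ℕ, (1 : L) ∈ W ^ n := by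
                  intro n
                  induction n with
                  | zero => rw [pow_zero]; exact Submodule.one_le.1 le_rfl
                  | succ n ihn => exact hmono n ihn
                exact this N
              have := Submodule.mul_mem_mul h3 hx
              rwa [one_mul] at this
            rwa [← h] at h2
          have h1N : (1 : L) ∈ W ^ N := hle h1
          let A : Subalgebra ℚ L :=
            { carrier := (W ^ N : Submodule ℚ L)
              mul_mem' := fun {a b} ha hb => hmul a ha b hb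
              add_mem' := fun {a b} ha hb => Submodule.add_mem _ ha hb
              algebraMap_mem' := fun r => by
                have := Submodule.smul_mem (W ^ N) r h1N
                rwa [Algebra.smul_def, mul_one] at this }
          have hA : A = ⊤ := by
            rw [eq_top_iff, ← hgen]
            exact Algebra.adjoin_le fun x hx => hle hx
          have hN : W ^ N = ⊤ := by
            rw [eq_top_iff]
            intro x _
            have : x ∈ A := by rw [hA]; trivial
            exact this
          rw [← h]; exact hN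
        · left
          have hlt : W ^ N < W ^ (N + 1) := lt_of_le_of_ne (hmono N) h
          have := Submodule.finrank_lt_finrank_of_lt hlt
          omega
      · right
        rw [eq_top_iff, ← ih]
        exact hmono N
  rcases key (finrank ℚ L) with h | h
  · exact absurd (Submodule.finrank_le (W ^ finrank ℚ L)) (by omega)
  · exact h

end chain

/-- The discriminant of a basis of integers is at least that of the field. -/
theorem discr_le_basis {L : Type} [Field L] [NumberField L] {ι : Type} [Fintype ι] [DecidableEq ι]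
    (b : Basis ι ℚ L) (hb : ∀ i, IsIntegral ℤ (b i)) :
    |(discr L : ℚ)| ≤ |Algebra.discr ℚ b| := by
  classical
  let w := integralBasis L
  have hcard : Fintype.card (Free.ChooseBasisIndex ℤ (𝓞 L)) = Fintype.card ι := by
    rw [← finrank_eq_card_basis w, ← finrank_eq_card_basis b]
  let e := Fintype.equivOfCardEq hcard
  let w' := w.reindex e
  have hw' : Algebra.discr ℚ w' = discr L := by
    rw [coe_discr]
    have : (w' : ι → L) = w ∘ e.symm := by
      funext i; exact Basis.reindex_apply _ _ _
    rw [this, Algebra.discr_reindex]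
  have h1 := Algebra.discr_of_matrix_vecMul (w' : ι → L) (w'.toMatrix b)
  have h2 : Matrix.vecMul (w' : ι → L) ((w'.toMatrix b).map (algebraMap ℚ L)) = b := by
    exact Basis.toMatrix_map_vecMul _ _
  rw [h2] at h1
  have hint : ∀ i j, ∃ z : ℤ, w'.toMatrix b i j = z := by
    intro i j
    rw [Basis.toMatrix_apply]
    have h3 : (b j) ∈ Submodule.span ℤ (Set.range w) := by
      rw [mem_span_integralBasis]
      exact ⟨⟨b j, hb j⟩, rfl⟩
    have h4 : w'.repr (b j) i = w.repr (b j) (e.symm i) := by
      exact Basis.repr_reindex_apply _ _ _ _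
    rw [h4]
    have h5 := (Basis.mem_span_iff_repr_mem ℤ w (b j)).1 h3 (e.symm i)
    obtain ⟨z, hz⟩ := h5
    exact ⟨z, hz.symm⟩
  choose Z hZ using hint
  have hdet : (w'.toMatrix b).det = ((Matrix.of Z).det : ℤ) := by
    have : w'.toMatrix b = (Matrix.of Z).map (Int.castRingHom ℚ) := by
      ext i j
      rw [hZ]; rfl
    rw [this, ← RingHom.mapMatrix_apply, ← RingHom.map_det]
    rfl
  have hne : Algebra.discr ℚ b ≠ 0 := Algebra.discr_not_zero_of_basis ℚ b
  rw [h1, hw'] at hne ⊢
  rw [hdet] at hne ⊢
  have hz : (Matrix.of Z).det ≠ 0 := by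
    intro h0
    rw [h0] at hne
    simp at hne
  rw [abs_mul, abs_pow]
  have h6 : (1 : ℚ) ≤ |(((Matrix.of Z).det : ℤ) : ℚ)| := by
    have := Int.one_le_abs hz
    exact_mod_cast this
  have h7 : (1 : ℚ) ≤ |(((Matrix.of Z).det : ℤ) : ℚ)| ^ 2 := one_le_pow₀ h6
  nlinarith [abs_nonneg (discr L : ℚ)]

/-- The bound for the discriminant of a basis by Hadamard's inequality. -/
theorem discr_basis_le {L : Type} [Field L] [NumberField L] {ι : Type} [Fintype ι] [DecidableEq ι]
    (b : Basis ι ℚ L) (c : (L →+* ℂ) → ℝ) (hc : ∀ τ : L →+* ℂ, ∀ i, ‖τ (b i)‖ ≤ c τ) :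
    |((Algebra.discr ℚ b : ℚ) : ℝ)| ≤ (finrank ℚ L : ℝ) ^ (finrank ℚ L) * ∏ τ : L →+* ℂ, c τ ^ 2 := by
  classical
  have hcardι : Fintype.card ι = finrank ℚ L := (finrank_eq_card_basis b).symm
  have hcardE : Fintype.card (L →ₐ[ℚ] ℂ) = finrank ℚ L := AlgHom.card ℚ L ℂ
  let e₁ : Fin (finrank ℚ L) ≃ ι := Fintype.equivOfCardEq (by simp [hcardι])
  let e₂ : Fin (finrank ℚ L) ≃ (L →ₐ[ℚ] ℂ) := Fintype.equivOfCardEq (by simp [hcardE])
  let b' := b.reindex e₁.symm
  have hb' : Algebra.discr ℚ b' = Algebra.discr ℚ b := by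
    have : (b' : Fin (finrank ℚ L) → L) = b ∘ e₁ := by
      funext i; simp [b']
    have h := Algebra.discr_reindex ℚ b e₁.symm
    rw [Equiv.symm_symm] at h
    rw [this, h]
  have h1 := Algebra.discr_eq_det_embeddingsMatrixReindex_pow_two ℚ ℂ (b' : Fin (finrank ℚ L) → L)
    e₂
  have h2 : |((Algebra.discr ℚ b : ℚ) : ℝ)| =
      ‖(Algebra.embeddingsMatrixReindex ℚ ℂ (b' : Fin (finrank ℚ L) → L) e₂).det‖ ^ 2 := by
    rw [← norm_pow, ← h1, hb']
    simp
  rw [h2, ← Matrix.det_transpose]
  refine (Pool.Agent.Q191.MV.det_le _).trans ?_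
  have h3 : ∀ i : Fin (finrank ℚ L), ∑ j, ‖(Algebra.embeddingsMatrixReindex ℚ ℂ
      (b' : Fin (finrank ℚ L) → L) e₂).transpose i j‖ ^ 2 ≤
      (finrank ℚ L : ℝ) * c ((e₂ i : L →ₐ[ℚ] ℂ) : L →+* ℂ) ^ 2 := by
    intro i
    refine (Finset.sum_le_sum (g := fun _ => c ((e₂ i : L →ₐ[ℚ] ℂ) : L →+* ℂ) ^ 2)
      fun j _ => ?_).trans ?_
    · have : (Algebra.embeddingsMatrixReindex ℚ ℂ
        (b' : Fin (finrank ℚ L) → L) e₂).transpose i j = ((e₂ i : L →ₐ[ℚ] ℂ) : L →+* ℂ) (b (e₁ j)) := by
        simp [Algebra.embeddingsMatrixReindex, Algebra.embeddingsMatrix, b']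
      rw [this]
      exact pow_le_pow_left₀ (norm_nonneg _) (hc _ _) 2
    · rw [Finset.sum_const, Finset.card_univ, Fintype.card_fin, nsmul_eq_mul]
  refine (Finset.prod_le_prod (fun i _ => Finset.sum_nonneg fun j _ => sq_nonneg _)
    fun i _ => h3 i).trans ?_
  rw [Finset.prod_mul_distrib, Finset.prod_const, Finset.card_univ, Fintype.card_fin]
  refine le_of_eq ?_
  congr 1
  let e₃ : Fin (finrank ℚ L) ≃ (L →+* ℂ) := e₂.trans (RingHom.equivRatAlgHom (R := L) (S := ℂ)).symm
  rw [← e₃.prod_comp]
  rfl

end Pool.Agent.Q226.DF
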