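import Mathlib
import Pool.Agent.Q226.DF.Disc

/-!
# The field generated by the roots of a polynomial
-/

set_option autoImplicit false

open Finset Polynomial Module NumberField
open scoped Pointwise

namespace Pool.Agent.Q226.DF

/-- The tower formula for discriminants as an inequality. -/
theorem discr_pow_le (F L : Type) [Field F] [NumberField F] [Field L] [NumberField L]
    [Algebra F L] : |(discr F : ℝ)| ^ (finrank F L) ≤ |(discr L : ℝ)| := by
  have h := natAbs_discr_eq_absNorm_differentIdeal_mul_natAbs_discr_pow F (𝓞 F) L (𝓞 L)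
  have h0 : (discr L).natAbs ≠ 0 := Int.natAbs_ne_zero.2 (discr_ne_zero L)
  have h1 : 1 ≤ Ideal.absNorm (differentIdeal (𝓞 F) (𝓞 L)) := by
    rcases Nat.eq_zero_or_pos (Ideal.absNorm (differentIdeal (𝓞 F) (𝓞 L))) with h2 | h2
    · rw [h2, zero_mul] at h
      exact absurd h h0
    · exact h2
  have h2 : (discr F).natAbs ^ (finrank F L) ≤ (discr L).natAbs := by
    rw [h]
    exact Nat.le_mul_of_pos_left _ h1
  have h3 : (((discr F).natAbs ^ (finrank F L) : ℕ) : ℝ) ≤ ((discr L).natAbs : ℕ) := by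
    exact_mod_cast h2
  rw [Nat.cast_pow, Nat.cast_natAbs, Nat.cast_natAbs, Int.cast_abs, Int.cast_abs] at h3
  exact h3

/-- **The discriminant bound.** If the field `L` is generated by algebraic integers, which under each
embedding outside `T` have absolute value at most `1`, and at most `Λ` under those in `T`, then
`|disc L| ≤ D ^ D Λ ^ (2 D |T|)`. -/
theorem discr_le {L : Type} [Field L] [NumberField L] (R : Set L) (hR : ∀ x ∈ R, IsIntegral ℤ x)
    (hgen : Algebra.adjoin ℚ R = ⊤) (T : Finset (L →+* ℂ)) (Λ : ℝ) (hΛ : 1 ≤ Λ)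
    (hin : ∀ τ : L →+* ℂ, ∀ x ∈ R, ‖τ x‖ ≤ Λ) (hout : ∀ τ : L →+* ℂ, τ ∉ T → ∀ x ∈ R, ‖τ x‖ ≤ 1) :
    |(discr L : ℝ)| ≤ ((finrank ℚ L : ℝ) * Λ ^ (2 * T.card)) ^ (finrank ℚ L) := by
  classical
  set D := finrank ℚ L with hD
  let W : Submodule ℚ L := Submodule.span ℚ (insert 1 R)
  have h1W : (1 : L) ∈ W := Submodule.subset_span (Set.mem_insert _ _)
  have hgW : Algebra.adjoin ℚ (W : Set L) = ⊤ := by
    rw [eq_top_iff, ← hgen]
    exact Algebra.adjoin_mono fun x hx => Submodule.subset_span (Set.mem_insert_of_mem _ hx)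
  have hW := pow_eq_top W h1W hgW
  have hspan : Submodule.span ℚ ((insert 1 R : Set L) ^ D) = ⊤ := by
    rw [← Submodule.span_pow]; exact hW
  obtain ⟨t, ht, hts, hli⟩ := exists_linearIndependent ℚ ((insert 1 R : Set L) ^ D)
  rw [hspan] at hts
  let b : Basis t ℚ L := Basis.mk hli (by rw [Subtype.range_coe, hts])
  have : Fintype t := FiniteDimensional.fintypeBasisIndex b
  have hbt : ∀ i : t, b i = (i : L) := fun i => by rw [Basis.mk_apply]
  have hprod : ∀ i : t, ∃ f : Fin D → (insert 1 R : Set L), b i = ∏ j, (f j : L) := by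
    intro i
    have := ht i.2
    rw [Set.mem_pow] at this
    obtain ⟨f, hf⟩ := this
    exact ⟨f, by rw [hbt, ← hf, List.prod_ofFn]⟩
  have hbint : ∀ i, IsIntegral ℤ (b i) := by
    intro i
    obtain ⟨f, hf⟩ := hprod i
    rw [hf]
    refine IsIntegral.prod _ fun j _ => ?_
    rcases (f j).2 with h | h
    · rw [h]; exact isIntegral_one
    · exact hR _ h
  let c : (L →+* ℂ) → ℝ := fun τ => if τ ∈ T then Λ ^ D else 1
  have hc : ∀ τ : L →+* ℂ, ∀ i, ‖τ (b i)‖ ≤ c τ := by
    intro τ i
    obtain ⟨f, hf⟩ := hprod i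
    rw [hf, map_prod, norm_prod]
    show _ ≤ if τ ∈ T then Λ ^ D else 1
    split_ifs with h
    · calc ∏ j, ‖τ (f j : L)‖ ≤ ∏ _j : Fin D, Λ := by
            refine Finset.prod_le_prod (fun j _ => norm_nonneg _) fun j _ => ?_
            rcases (f j).2 with h | h
            · rw [h, map_one, norm_one]; exact hΛ
            · exact hin τ _ h
        _ = Λ ^ D := by rw [Finset.prod_const, Finset.card_univ, Fintype.card_fin]
    · calc ∏ j, ‖τ (f j : L)‖ ≤ ∏ _j : Fin D, (1 : ℝ) := by
            refine Finset.prod_le_prod (fun j _ => norm_nonneg _) fun j _ => ?_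
            rcases (f j).2 with h' | h'
            · rw [h', map_one, norm_one]
            · exact hout τ h _ h'
        _ = 1 := by rw [Finset.prod_const_one]
  have h1 := discr_le_basis b hbint
  have h2 := discr_basis_le b c hc
  have h3 : |(discr L : ℝ)| ≤ |((Algebra.discr ℚ b : ℚ) : ℝ)| := by
    have : (((|(discr L : ℚ)| : ℚ)) : ℝ) ≤ ((|Algebra.discr ℚ b| : ℚ) : ℝ) := by exact_mod_cast h1
    rw [Rat.cast_abs, Rat.cast_abs] at this
    simpa using this
  have h4 : ∏ τ : L →+* ℂ, c τ ^ 2 = (Λ ^ (2 * T.card)) ^ D := by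
    have : ∀ τ : L →+* ℂ, c τ ^ 2 = if τ ∈ T then (Λ ^ D) ^ 2 else 1 := by
      intro τ
      show (if τ ∈ T then Λ ^ D else 1) ^ 2 = _
      split_ifs <;> simp
    rw [Finset.prod_congr rfl fun τ _ => this τ, Finset.prod_ite_mem, Finset.univ_inter,
      Finset.prod_const]
    ring
  rw [h4, ← mul_pow] at h2
  exact h3.trans h2

/-- The degree of a splitting field. -/
theorem finrank_splitting (F : Type) [Field F] [CharZero F] (p : F[X]) :
    finrank F p.SplittingField ≤ (p.natDegree).factorial := by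
  classical
  have : Normal F p.SplittingField := Normal.of_isSplittingField p
  have : IsGalois F p.SplittingField := ⟨⟩
  have : Fact ((p.map (algebraMap F p.SplittingField)).Splits) := ⟨SplittingField.splits p⟩
  rw [← IsGalois.card_aut_eq_finrank]
  have h1 : Nat.card (p.SplittingField ≃ₐ[F] p.SplittingField) ≤
      Nat.card (Equiv.Perm (p.rootSet p.SplittingField)) :=
    Nat.card_le_card_of_injective _ (Gal.galActionHom_injective p p.SplittingField)
  refine h1.trans ?_
  rw [Nat.card_eq_fintype_card, Fintype.card_perm]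
  refine Nat.factorial_le ?_
  have h2 := ncard_rootSet_le p p.SplittingField
  rwa [← Nat.card_coe_set_eq, Nat.card_eq_fintype_card] at h2

end Pool.Agent.Q226.DF
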