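import Mathlib
import Pool.Agent.Q226.DF.Gen
import Pool.Agent.H225R3.Marg5

/-!
# Discriminants and eigenvalues
-/

set_option autoImplicit false

open Finset Polynomial Module NumberField
open Pool.Agent.H225R3.Marg (emb card_over)

namespace Pool.Agent.Q226.DF

section gen

variable {k : Type} [Field k] [NumberField k]

/-- A field generated by the coefficients of a polynomial: its splitting field is generated by the
roots. -/
theorem adjoin_roots (P : k[X]) (F : IntermediateField ℚ k)
    (hF : F = IntermediateField.adjoin ℚ (P.coeffs : Set k)) (p : F[X]) (hm : p.Monic)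
    (hp : p.map (algebraMap F k) = P) :
    Algebra.adjoin ℚ (p.rootSet p.SplittingField) = ⊤ := by
  obtain ⟨B, hB⟩ : ∃ B : Subalgebra ℚ p.SplittingField,
    B = Algebra.adjoin ℚ (p.rootSet p.SplittingField) := ⟨_, rfl⟩
  -- the coefficients of `p` lie in `B`
  have hsplit : (p.map (algebraMap F p.SplittingField)).Splits := SplittingField.splits p
  have hm' : (p.map (algebraMap F p.SplittingField)).Monic := hm.map _
  have hcoef : ∀ i, algebraMap F p.SplittingField (p.coeff i) ∈ B := by
    intro i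
    have h1 := hsplit.eq_prod_roots_of_monic hm'
    have h2 : p.map (algebraMap F p.SplittingField) ∈
        Polynomial.lifts (algebraMap B p.SplittingField) := by
      rw [h1]
      refine Subsemiring.multiset_prod_mem _ _ fun q hq => ?_
      rw [Multiset.mem_map] at hq
      obtain ⟨r, hr, rfl⟩ := hq
      have hrB : r ∈ B := by
        rw [hB]
        refine Algebra.subset_adjoin ?_
        rw [mem_rootSet]
        refine ⟨hm.ne_zero, ?_⟩
        have := isRoot_of_mem_roots hr
        rwa [IsRoot, eval_map_algebraMap] at this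
      refine ⟨X - C ⟨r, hrB⟩, ?_⟩
      rw [coe_mapRingHom, Polynomial.map_sub, map_X, map_C]
      rfl
    rw [Polynomial.lifts_iff_coeff_lifts] at h2
    obtain ⟨y, hy⟩ := h2 i
    rw [coeff_map] at hy
    rw [← hy]
    exact y.2
  -- the field `F` lies in `B`
  have hFB : ∀ z : k, z ∈ Algebra.adjoin ℚ (P.coeffs : Set k) →
      ∃ hz : z ∈ F, algebraMap F p.SplittingField ⟨z, hz⟩ ∈ B := by
    intro z hz
    refine Algebra.adjoin_induction (p := fun z _ => ∃ hz : z ∈ F,
      algebraMap F p.SplittingField ⟨z, hz⟩ ∈ B) ?_ ?_ ?_ ?_ hz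
    · intro z hz
      rw [Finset.mem_coe, Polynomial.mem_coeffs_iff] at hz
      obtain ⟨i, -, rfl⟩ := hz
      have h3 : P.coeff i = algebraMap F k (p.coeff i) := by rw [← hp, coeff_map]
      refine ⟨by rw [h3]; exact (p.coeff i).2, ?_⟩
      have h4 : (⟨P.coeff i, by rw [h3]; exact (p.coeff i).2⟩ : F) = p.coeff i :=
        Subtype.ext h3
      rw [h4]
      exact hcoef i
    · intro r
      refine ⟨F.algebraMap_mem r, ?_⟩
      have h4 : (⟨algebraMap ℚ k r, F.algebraMap_mem r⟩ : F) = algebraMap ℚ F r := rfl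
      rw [h4, ← IsScalarTower.algebraMap_apply]
      exact B.algebraMap_mem r
    · rintro x y _ _ ⟨hx, hx'⟩ ⟨hy, hy'⟩
      refine ⟨F.add_mem hx hy, ?_⟩
      have h4 : (⟨x + y, F.add_mem hx hy⟩ : F) = ⟨x, hx⟩ + ⟨y, hy⟩ := rfl
      rw [h4, map_add]
      exact B.add_mem hx' hy'
    · rintro x y _ _ ⟨hx, hx'⟩ ⟨hy, hy'⟩
      refine ⟨F.mul_mem hx hy, ?_⟩
      have h4 : (⟨x * y, F.mul_mem hx hy⟩ : F) = ⟨x, hx⟩ * ⟨y, hy⟩ := rfl
      rw [h4, map_mul]
      exact B.mul_mem hx' hy'
  have hF' : ∀ y : F, algebraMap F p.SplittingField y ∈ B := by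
    intro y
    have h5 : (y : k) ∈ Algebra.adjoin ℚ (P.coeffs : Set k) := by
      have h6 : F.toSubalgebra = Algebra.adjoin ℚ (P.coeffs : Set k) := by
        rw [hF]
        exact IntermediateField.adjoin_toSubalgebra_of_isAlgebraic
          fun x _ => Algebra.IsAlgebraic.isAlgebraic x
      rw [← h6]
      exact y.2
    obtain ⟨_, h7⟩ := hFB y h5
    exact h7
  rw [← hB, eq_top_iff]
  intro x _
  have h8 : x ∈ Algebra.adjoin F (p.rootSet p.SplittingField) := by
    rw [SplittingField.adjoin_rootSet]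
    trivial
  refine Algebra.adjoin_induction (p := fun x _ => x ∈ B) ?_ ?_ ?_ ?_ h8
  · intro x hx
    rw [hB]
    exact Algebra.subset_adjoin hx
  · exact hF'
  · intro x y _ _ hx hy
    exact B.add_mem hx hy
  · intro x y _ _ hx hy
    exact B.mul_mem hx hy

end gen

/-- **Small eigenvalues force a small discriminant.** `A` is an invertible matrix over the integers
of `k`, its eigenvalues have absolute value at most `1` under the embeddings outside `S`, at most `Λ`
under those in `S`, and one of them is larger than `1`. Then the field `F` generated by the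
coefficients of the characteristic polynomial has index at most `|S|` and small discriminant. -/
theorem main (k : Type) [Field k] [NumberField k] (n : ℕ) (S : Finset (k →+* ℂ))
    (A : Matrix (Fin n) (Fin n) (𝓞 k)) (Λ : ℝ) (hΛ : 1 ≤ Λ)
    (hout : ∀ σ : k →+* ℂ, σ ∉ S → ∀ l : ℂ, ((emb σ).mapMatrix A).charpoly.IsRoot l → ‖l‖ ≤ 1)
    (hin : ∀ σ ∈ S, ∀ l : ℂ, ((emb σ).mapMatrix A).charpoly.IsRoot l → ‖l‖ ≤ Λ)
    (hbig : ∃ σ ∈ S, ∃ l : ℂ, ((emb σ).mapMatrix A).charpoly.IsRoot l ∧ 1 < ‖l‖) :
    ∃ F : IntermediateField ℚ k, finrank F k ≤ S.card ∧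
      |(discr F : ℝ)| ≤
        ((n.factorial : ℝ) * finrank ℚ F * Λ ^ (2 * (S.card * n.factorial))) ^ (finrank ℚ F) := by
  classical
  obtain ⟨P, hP⟩ : ∃ P : k[X], P = A.charpoly.map (algebraMap (𝓞 k) k) := ⟨_, rfl⟩
  have hPm : P.Monic := by rw [hP]; exact A.charpoly_monic.map _
  have hPn : P.natDegree = n := by
    rw [hP, A.charpoly_monic.natDegree_map, Matrix.charpoly_natDegree_eq_dim, Fintype.card_fin]
  obtain ⟨F, hF⟩ : ∃ F : IntermediateField ℚ k,
    F = IntermediateField.adjoin ℚ (P.coeffs : Set k) := ⟨_, rfl⟩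
  have hlift : P ∈ Polynomial.lifts (algebraMap F k) := by
    rw [Polynomial.lifts_iff_coeff_lifts]
    intro i
    by_cases hi : P.coeff i = 0
    · rw [hi]; exact ⟨0, map_zero _⟩
    · refine ⟨⟨P.coeff i, ?_⟩, rfl⟩
      rw [hF]
      exact IntermediateField.subset_adjoin _ _ (Polynomial.coeff_mem_coeffs hi)
  obtain ⟨p, hp, hpn, hpm⟩ := Polynomial.lifts_and_natDegree_eq_and_monic hlift hPm
  rw [hPn] at hpn
  have hFF : NumberField F := inferInstance
  have hL : NumberField p.SplittingField := NumberField.of_module_finite F p.SplittingField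
  have hgen := adjoin_roots P F hF p hpm hp
  -- the conjugate polynomials
  have hconj : ∀ σ : k →+* ℂ, ((emb σ).mapMatrix A).charpoly =
      p.map (σ.comp (algebraMap F k)) := by
    intro σ
    have h1 : ((emb σ).mapMatrix A).charpoly = A.charpoly.map (emb σ) := by
      rw [← Matrix.charpoly_map]; rfl
    rw [h1, ← Polynomial.map_map, hp, hP, Polynomial.map_map]
    rfl
  have hroot : ∀ (τ : p.SplittingField →+* ℂ) (σ : k →+* ℂ),
      σ.comp (algebraMap F k) = τ.comp (algebraMap F p.SplittingField) →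
      ∀ x ∈ p.rootSet p.SplittingField, ((emb σ).mapMatrix A).charpoly.IsRoot (τ x) := by
    intro τ σ h x hx
    rw [hconj, h, ← Polynomial.map_map, IsRoot, eval_map, eval₂_hom]
    rw [mem_rootSet] at hx
    rw [eval_map_algebraMap, hx.2, map_zero]
  have hlift2 : ∀ φ : F →+* ℂ, ∃ σ : k →+* ℂ, σ.comp (algebraMap F k) = φ := fun φ =>
    ⟨NumberField.ComplexEmbedding.lift k φ, NumberField.ComplexEmbedding.lift_comp_algebraMap k φ⟩
  -- the noncompact embeddings of `F`
  let TF : Finset (F →+* ℂ) := Finset.univ.filter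
    fun φ => ∀ σ : k →+* ℂ, σ.comp (algebraMap F k) = φ → σ ∈ S
  have hTF : TF.card * finrank F k ≤ S.card := by
    rw [← card_over TF]
    refine Finset.card_le_card fun σ hσ => ?_
    rw [Finset.mem_filter] at hσ
    exact (Finset.mem_filter.1 hσ.2).2 σ rfl
  have hTF0 : 0 < TF.card := by
    obtain ⟨σ, hσ, l, hl, hl1⟩ := hbig
    refine Finset.card_pos.2 ⟨σ.comp (algebraMap F k), ?_⟩
    refine Finset.mem_filter.2 ⟨Finset.mem_univ _, fun σ' hσ' => ?_⟩
    by_contra hcon
    have := hout σ' hcon l (by rw [hconj, hσ', ← hconj]; exact hl)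
    exact absurd this (not_le.2 hl1)
  have hidx : finrank F k ≤ S.card :=
    le_trans (Nat.le_mul_of_pos_left _ hTF0) hTF
  have hTFs : TF.card ≤ S.card :=
    le_trans (Nat.le_mul_of_pos_right _ finrank_pos) hTF
  -- the noncompact embeddings of `L`
  let T : Finset (p.SplittingField →+* ℂ) := Finset.univ.filter
    fun τ => ∃ x ∈ p.rootSet p.SplittingField, 1 < ‖τ x‖
  have hT : T.card ≤ S.card * n.factorial := by
    have h1 : T.card ≤ TF.card * finrank F p.SplittingField := by
      rw [← card_over TF]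
      refine Finset.card_le_card fun τ hτ => ?_
      obtain ⟨x, hx, hx1⟩ := (Finset.mem_filter.1 hτ).2
      refine Finset.mem_filter.2 ⟨Finset.mem_univ _, ?_⟩
      refine Finset.mem_filter.2 ⟨Finset.mem_univ _, fun σ hσ => ?_⟩
      by_contra hcon
      exact absurd (hout σ hcon _ (hroot τ σ hσ x hx)) (not_le.2 hx1)
    have h2 := finrank_splitting F p
    rw [hpn] at h2
    exact h1.trans (Nat.mul_le_mul hTFs h2)
  -- integrality
  have hint : ∀ x ∈ p.rootSet p.SplittingField, IsIntegral ℤ x := by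
    intro x hx
    rw [mem_rootSet] at hx
    by_cases hn : n = 0
    · exfalso
      have h1 : p = 1 := (Polynomial.Monic.natDegree_eq_zero hpm).1 (by rw [hpn, hn])
      have h2 : (aeval x) p = (aeval x) (1 : F[X]) := congrArg _ h1
      rw [hx.2, map_one] at h2
      exact zero_ne_one h2
    refine IsIntegral.of_aeval_monic_of_isIntegral_coeff (p := p.map (algebraMap F p.SplittingField))
      (hpm.map _) ?_ ?_ ?_
    · rw [hpm.natDegree_map, hpn]; exact hn
    · rw [eval_map_algebraMap, hx.2]; exact isIntegral_zero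
    · intro i
      rw [coeff_map]
      refine IsIntegral.map (algebraMap F p.SplittingField).toIntAlgHom ?_
      have h3 : IsIntegral ℤ (algebraMap F k (p.coeff i)) := by
        rw [← coeff_map, hp, hP, coeff_map]
        exact RingOfIntegers.isIntegral_coe _
      exact (isIntegral_algHom_iff (algebraMap F k).toIntAlgHom
        (algebraMap F k).injective).1 h3
  have hΛ' : ∀ τ : p.SplittingField →+* ℂ, ∀ x ∈ p.rootSet p.SplittingField, ‖τ x‖ ≤ Λ := by
    intro τ x hx
    obtain ⟨σ, hσ⟩ := hlift2 (τ.comp (algebraMap F p.SplittingField))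
    have h1 := hroot τ σ hσ x hx
    by_cases h : σ ∈ S
    · exact hin σ h _ h1
    · exact (hout σ h _ h1).trans hΛ
  have h1 := discr_le (p.rootSet p.SplittingField) hint hgen T Λ hΛ hΛ' (by
    intro τ hτ x hx
    by_contra hcon
    exact hτ (Finset.mem_filter.2 ⟨Finset.mem_univ _, x, hx, not_le.1 hcon⟩))
  have h2 := discr_pow_le F p.SplittingField
  refine ⟨F, hidx, ?_⟩
  have hg0 : finrank F p.SplittingField ≠ 0 := finrank_pos.ne'
  have hmul : finrank ℚ F * finrank F p.SplittingField = finrank ℚ p.SplittingField :=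
    finrank_mul_finrank ℚ F p.SplittingField
  refine le_of_pow_le_pow_left₀ hg0 (by positivity) ?_
  refine (h2.trans h1).trans ?_
  rw [← pow_mul, hmul]
  refine pow_le_pow_left₀ (by positivity) ?_ _
  have h3 : (finrank ℚ p.SplittingField : ℝ) ≤ n.factorial * finrank ℚ F := by
    have h4 := finrank_splitting F p
    rw [hpn] at h4
    have : finrank ℚ p.SplittingField ≤ n.factorial * finrank ℚ F := by
      rw [← hmul, mul_comm]
      exact Nat.mul_le_mul_right _ h4
    exact_mod_cast this
  have h5 : Λ ^ (2 * T.card) ≤ Λ ^ (2 * (S.card * n.factorial)) :=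
    pow_le_pow_right₀ hΛ (Nat.mul_le_mul_left _ hT)
  exact mul_le_mul h3 h5 (by positivity) (by positivity)

end Pool.Agent.Q226.DF
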