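import Mathlib
import Pool.Agent.Q191.MV.Gap

/-!
# Fields of bounded degree
-/

set_option autoImplicit false

open Finset Polynomial Module NumberField
open Pool.Agent.H225R3.Marg (emb)

namespace Pool.Agent.Q226.DF

theorem frob_rat : Pool.Agent.Q191.MV.FrobeniusAt ℚ 2 1 := by
  have e2 : Rat.ringOfIntegersEquiv (2 : 𝓞 ℚ) = 2 := map_ofNat _ 2
  have hprime : Prime (2 : 𝓞 ℚ) := by
    rw [← MulEquiv.prime_iff Rat.ringOfIntegersEquiv, e2]
    exact Int.prime_two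
  have hP : (Ideal.span {(2 : 𝓞 ℚ)}).IsPrime :=
    (Ideal.span_singleton_prime two_ne_zero).2 hprime
  refine ⟨2, 1, RingEquiv.refl ℚ, {Ideal.span {(2 : 𝓞 ℚ)}}, Nat.prime_two, one_pos, rfl, ?_, ?_⟩
  · intro P h
    rw [Finset.mem_singleton] at h
    subst h
    refine ⟨hP, ?_, fun x => ?_⟩
    · rw [Nat.cast_ofNat]
      exact Ideal.mem_span_singleton_self _
    · have h1 : RingOfIntegers.mapRingHom ((RingEquiv.refl ℚ : ℚ ≃+* ℚ) : ℚ →+* ℚ) x = x := by
        ext; rfl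
      rw [h1, Ideal.mem_span_singleton, ← map_dvd_iff Rat.ringOfIntegersEquiv, e2, map_sub, map_pow]
      obtain ⟨z, hz⟩ : ∃ z : ℤ, z = Rat.ringOfIntegersEquiv x := ⟨_, rfl⟩
      rw [← hz]
      have h2 := Int.even_mul_pred_self z
      obtain ⟨y, hy⟩ := h2
      exact ⟨y, by linarith [show z ^ 2 - z = z * (z - 1) by ring]⟩
  · rw [finrank_self, Finset.prod_singleton, pow_one, pow_one]
    have h1 : Ideal.absNorm (Ideal.span {(2 : 𝓞 ℚ)}) ≠ 1 := by
      rw [Ne, Ideal.absNorm_eq_one_iff]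
      exact hP.ne_top
    have h2 : Ideal.absNorm (Ideal.span {(2 : 𝓞 ℚ)}) ≠ 0 := by
      rw [Ne, Ideal.absNorm_eq_zero_iff, Ideal.span_singleton_eq_bot]
      exact two_ne_zero
    omega

end Pool.Agent.Q226.DF
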