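import Mathlib
import Pool.Agent.Q226.DF.Gen

/-!
# The relative discriminant of a field generated by integers with few large conjugates
-/

set_option autoImplicit false

open Finset Polynomial Module NumberField
open scoped Pointwise

namespace Pool.Agent.Q226.DF

/-- Hadamard's inequality. -/
theorem det_le_fintype {m : Type} [Fintype m] [DecidableEq m] (M : Matrix m m ℂ) :
    ‖M.det‖ ^ 2 ≤ ∏ i, ∑ j, ‖M i j‖ ^ 2 := by
  let e := Fintype.equivFin m
  have h := Pool.Agent.Q191.MV.det_le (M.submatrix e.symm e.symm)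
  rw [Matrix.det_submatrix_equiv_self] at h
  refine h.trans (le_of_eq ?_)
  rw [← e.symm.prod_comp (fun i => ∑ j, ‖M i j‖ ^ 2)]
  refine Finset.prod_congr rfl fun i _ => ?_
  rw [← e.symm.sum_comp (fun j => ‖M (e.symm i) j‖ ^ 2)]
  rfl

/-- The absolute value of the discriminant of a basis. -/
theorem abs_discr {L : Type} [Field L] [NumberField L] {ι : Type} [Fintype ι] [DecidableEq ι]
    (b : Basis ι ℚ L) (e : ι ≃ (L →ₐ[ℚ] ℂ)) :
    |((Algebra.discr ℚ b : ℚ) : ℝ)| =
      ‖(Matrix.of fun r i => e r (b i) : Matrix ι ι ℂ).det‖ ^ 2 := by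
  have h1 := Algebra.discr_eq_det_embeddingsMatrixReindex_pow_two ℚ ℂ (b : ι → L) e
  have h2 : (Algebra.embeddingsMatrixReindex ℚ ℂ (b : ι → L) e).transpose =
      (Matrix.of fun r i => e r (b i) : Matrix ι ι ℂ) := by
    ext r i
    simp [Algebra.embeddingsMatrixReindex, Algebra.embeddingsMatrix]
  rw [← h2, Matrix.det_transpose, ← norm_pow, ← h1]
  simp

/-- The discriminant of a product basis. -/
theorem discr_prod_le {E L : Type} [Field E] [NumberField E] [Field L] [NumberField L]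
    [Algebra E L] {ι κ : Type} [Fintype ι] [DecidableEq ι] [Fintype κ] [DecidableEq κ]
    (w : Basis ι ℚ E) (b : Basis κ E L) (c : (L →+* ℂ) → ℝ)
    (hc : ∀ τ : L →+* ℂ, ∀ j, ‖τ (b j)‖ ≤ c τ) :
    |((Algebra.discr ℚ (w.smulTower b) : ℚ) : ℝ)| ≤
      |((Algebra.discr ℚ w : ℚ) : ℝ)| ^ (finrank E L) *
        ((finrank E L : ℝ) ^ (finrank ℚ L) * ∏ τ : L →+* ℂ, c τ ^ 2) := by
  classical
  have hcardE : Fintype.card (E →ₐ[ℚ] ℂ) = finrank ℚ E := AlgHom.card ℚ E ℂ
  have hcardL : Fintype.card (L →ₐ[ℚ] ℂ) = finrank ℚ L := AlgHom.card ℚ L ℂ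
  have hι : Fintype.card ι = finrank ℚ E := (finrank_eq_card_basis w).symm
  have hικ : Fintype.card (ι × κ) = finrank ℚ L := (finrank_eq_card_basis (w.smulTower b)).symm
  have hκ : Fintype.card κ = finrank E L := (finrank_eq_card_basis b).symm
  let e : ι ≃ (E →ₐ[ℚ] ℂ) := Fintype.equivOfCardEq (by rw [hcardE, hι])
  let e₂ : (ι × κ) ≃ (L →ₐ[ℚ] ℂ) := Fintype.equivOfCardEq (by rw [hcardL, hικ])
  rw [abs_discr w e, abs_discr (w.smulTower b) e₂]
  let W : Matrix ι ι ℂ := Matrix.of fun i' i => e i' (w i)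
  let res : (ι × κ) → ι := fun r => e.symm ((e₂ r).comp (IsScalarTower.toAlgHom ℚ E L))
  have hres : ∀ r x, e (res r) x = e₂ r (algebraMap E L x) := by
    intro r x
    simp [res]
  let Bm : Matrix (ι × κ) (ι × κ) ℂ := Matrix.of fun r ij =>
    if ij.1 = res r then e₂ r (b ij.2) else 0
  have hM : (Matrix.of fun r ij => e₂ r (w.smulTower b ij) : Matrix (ι × κ) (ι × κ) ℂ) =
      Bm * Matrix.kroneckerMap (· * ·) W (1 : Matrix κ κ ℂ) := by
    ext r ij
    obtain ⟨i, j⟩ := ij
    rw [Matrix.mul_apply, Fintype.sum_prod_type]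
    have h1 : ∀ i' : ι, ∑ j' : κ, Bm r (i', j') *
        Matrix.kroneckerMap (· * ·) W (1 : Matrix κ κ ℂ) (i', j') (i, j) =
        if i' = res r then e₂ r (b j) * e i' (w i) else 0 := by
      intro i'
      rw [Finset.sum_eq_single j]
      · by_cases h : i' = res r
        · simp [Bm, W, h]
        · simp [Bm, W, h]
      · intro j' _ hj'
        simp [Matrix.kroneckerMap_apply, hj']
      · intro h; exact absurd (Finset.mem_univ _) h
    rw [Finset.sum_congr rfl fun i' _ => h1 i', Finset.sum_ite_eq' Finset.univ (res r)]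
    simp only [Finset.mem_univ, if_true]
    rw [hres, Matrix.of_apply, Basis.smulTower_apply, Algebra.smul_def, map_mul, mul_comm]
  rw [hM, Matrix.det_mul, Matrix.det_kronecker, Matrix.det_one, one_pow, mul_one, norm_mul,
    mul_pow, norm_pow, ← pow_mul, mul_comm (Fintype.card κ) 2, pow_mul, hκ, mul_comm]
  refine mul_le_mul_of_nonneg_left ?_ (by positivity)
  refine (det_le_fintype Bm).trans ?_
  have h3 : ∀ r : ι × κ, ∑ ij, ‖Bm r ij‖ ^ 2 ≤
      (finrank E L : ℝ) * c ((e₂ r : L →ₐ[ℚ] ℂ) : L →+* ℂ) ^ 2 := by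
    intro r
    rw [Fintype.sum_prod_type, Finset.sum_eq_single (res r)]
    · refine (Finset.sum_le_sum (g := fun _ => c ((e₂ r : L →ₐ[ℚ] ℂ) : L →+* ℂ) ^ 2)
        fun j _ => ?_).trans ?_
      · have h4 : Bm r (res r, j) = ((e₂ r : L →ₐ[ℚ] ℂ) : L →+* ℂ) (b j) := by
          simp [Bm]
        rw [h4]
        exact pow_le_pow_left₀ (norm_nonneg _) (hc _ _) 2
      · rw [Finset.sum_const, Finset.card_univ, nsmul_eq_mul, hκ]
    · intro i' _ hi'
      refine Finset.sum_eq_zero fun j _ => ?_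
      have h4 : Bm r (i', j) = 0 := by simp [Bm, hi']
      rw [h4, norm_zero]
      norm_num
    · intro h; exact absurd (Finset.mem_univ _) h
  refine (Finset.prod_le_prod (fun i _ => Finset.sum_nonneg fun j _ => sq_nonneg _)
    fun i _ => h3 i).trans ?_
  rw [Finset.prod_mul_distrib, Finset.prod_const, Finset.card_univ, hικ]
  refine le_of_eq ?_
  congr 1
  let e₃ : (ι × κ) ≃ (L →+* ℂ) := e₂.trans (RingHom.equivRatAlgHom (R := L) (S := ℂ)).symm
  rw [← e₃.prod_comp]
  rfl

end Pool.Agent.Q226.DF
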