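import Mathlib
import Pool.Agent.Q226.DF.Rel

/-!
# The discriminant bound over a subfield
-/

set_option autoImplicit false

open Finset Polynomial Module NumberField
open scoped Pointwise

namespace Pool.Agent.Q226.DF

/-- A subspace containing `1` and generating the algebra fills it after `dim` steps. -/
theorem pow_eq_top_rel {K L : Type} [Field K] [Field L] [Algebra K L] [FiniteDimensional K L]
    (W : Submodule K L) (h1 : (1 : L) ∈ W)
    (hgen : Algebra.adjoin K (W : Set L) = ⊤) : W ^ (finrank K L) = ⊤ := by
  have hmono : ∀ N : ℕ, W ^ N ≤ W ^ (N + 1) := by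
    intro N x hx
    rw [pow_succ]
    have := Submodule.mul_mem_mul hx h1
    rwa [mul_one] at this
  have key : ∀ N : ℕ, N + 1 ≤ finrank K (W ^ N : Submodule K L) ∨ W ^ N = ⊤ := by
    intro N
    induction N with
    | zero =>
      left
      rw [pow_zero, zero_add, Submodule.one_eq_span, finrank_span_singleton one_ne_zero]
    | succ N ih =>
      rcases ih with ih | ih
      · by_cases h : W ^ N = W ^ (N + 1)
        · right
          have hst : ∀ m : ℕ, W ^ (N + m) = W ^ N := by
            intro m
            induction m with
            | zero => rfl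
            | succ m ihm => rw [← add_assoc, pow_succ, ihm, ← pow_succ, ← h]
          have hmul : ∀ x ∈ W ^ N, ∀ y ∈ W ^ N, x * y ∈ W ^ N := by
            intro x hx y hy
            have h2 := Submodule.mul_mem_mul hx hy
            rwa [← pow_add, hst] at h2
          have hle : W ≤ W ^ N := by
            intro x hx
            have h2 : x ∈ W ^ (N + 1) := by
              rw [pow_succ]
              have h3 : (1 : L) ∈ W ^ N := by
                have : ∀ n : ℕ, (1 : L) ∈ W ^ n := by
                  intro n
                  induction n with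
                  | zero => rw [pow_zero]; exact Submodule.one_le.1 le_rfl
                  | succ n ihn => exact hmono n ihn
                exact this N
              have := Submodule.mul_mem_mul h3 hx
              rwa [one_mul] at this
            rwa [← h] at h2
          have h1N : (1 : L) ∈ W ^ N := hle h1
          let A : Subalgebra K L :=
            { carrier := (W ^ N : Submodule K L)
              mul_mem' := fun {a b} ha hb => hmul a ha b hb
              add_mem' := fun {a b} ha hb => Submodule.add_mem _ ha hb
              algebraMap_mem' := fun r => by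
                have := Submodule.smul_mem (W ^ N) r h1N
                rwa [Algebra.smul_def, mul_one] at this }
          have hA : A = ⊤ := by
            rw [eq_top_iff, ← hgen]
            exact Algebra.adjoin_le fun x hx => hle hx
          have hN : W ^ N = ⊤ := by
            rw [eq_top_iff]
            intro x _
            have : x ∈ A := by rw [hA]; trivial
            exact this
          rw [← h]; exact hN
        · left
          have hlt : W ^ N < W ^ (N + 1) := lt_of_le_of_ne (hmono N) h
          have := Submodule.finrank_lt_finrank_of_lt hlt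
          omega
      · right
        rw [eq_top_iff, ← ih]
        exact hmono N
  rcases key (finrank K L) with h | h
  · exact absurd (Submodule.finrank_le (W ^ finrank K L)) (by omega)
  · exact h

/-- **The discriminant bound over a subfield.** If the field `L` is generated over `ℚ` by algebraic
integers, which under each embedding outside `T` have absolute value at most `1`, and at most `Λ`
under those in `T`, then `|disc L| ≤ |disc E| ^ m m ^ [L : ℚ] Λ ^ (2 m |T|)`, `m = [L : E]`. -/
theorem discr_le_rel (E : Type) {L : Type} [Field E] [NumberField E] [Field L] [NumberField L]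
    [Algebra E L] (R : Set L) (hR : ∀ x ∈ R, IsIntegral ℤ x)
    (hgen : Algebra.adjoin ℚ R = ⊤) (T : Finset (L →+* ℂ)) (Λ : ℝ) (hΛ : 1 ≤ Λ)
    (hin : ∀ τ : L →+* ℂ, ∀ x ∈ R, ‖τ x‖ ≤ Λ) (hout : ∀ τ : L →+* ℂ, τ ∉ T → ∀ x ∈ R, ‖τ x‖ ≤ 1) :
    |(discr L : ℝ)| ≤ |(discr E : ℝ)| ^ (finrank E L) *
      ((finrank E L : ℝ) ^ (finrank ℚ L) * Λ ^ (2 * (finrank E L * T.card))) := by
  classical
  have hfin : FiniteDimensional E L := FiniteDimensional.right ℚ E L
  set D := finrank E L with hD
  let W : Submodule E L := Submodule.span E (insert 1 R)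
  have h1W : (1 : L) ∈ W := Submodule.subset_span (Set.mem_insert _ _)
  have hgW : Algebra.adjoin E (W : Set L) = ⊤ := by
    have h1 : (Algebra.adjoin ℚ R : Set L) ⊆ Algebra.adjoin E R := by
      intro x hx
      refine Algebra.adjoin_induction (p := fun x _ => x ∈ Algebra.adjoin E R) ?_ ?_ ?_ ?_ hx
      · intro x hx
        exact Algebra.subset_adjoin hx
      · intro r
        rw [IsScalarTower.algebraMap_apply ℚ E L]
        exact Subalgebra.algebraMap_mem _ _
      · intro x y _ _ hx hy
        exact Subalgebra.add_mem _ hx hy
      · intro x y _ _ hx hy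
        exact Subalgebra.mul_mem _ hx hy
    have h2 : Algebra.adjoin E R = ⊤ := by
      rw [eq_top_iff]
      intro x _
      refine h1 ?_
      rw [hgen]
      trivial
    rw [eq_top_iff, ← h2]
    exact Algebra.adjoin_mono fun x hx => Submodule.subset_span (Set.mem_insert_of_mem _ hx)
  have hW := pow_eq_top_rel W h1W hgW
  have hspan : Submodule.span E ((insert 1 R : Set L) ^ D) = ⊤ := by
    rw [← Submodule.span_pow]; exact hW
  obtain ⟨t, ht, hts, hli⟩ := exists_linearIndependent E ((insert 1 R : Set L) ^ D)
  rw [hspan] at hts
  let b : Basis t E L := Basis.mk hli (by rw [Subtype.range_coe, hts])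
  have : Fintype t := FiniteDimensional.fintypeBasisIndex b
  have hbt : ∀ i : t, b i = (i : L) := fun i => by rw [Basis.mk_apply]
  have hprod : ∀ i : t, ∃ f : Fin D → (insert 1 R : Set L), b i = ∏ j, (f j : L) := by
    intro i
    have := ht i.2
    rw [Set.mem_pow] at this
    obtain ⟨f, hf⟩ := this
    exact ⟨f, by rw [hbt, ← hf, List.prod_ofFn]⟩
  have hbint : ∀ i, IsIntegral ℤ (b i) := by
    intro i
    obtain ⟨f, hf⟩ := hprod i
    rw [hf]
    refine IsIntegral.prod _ fun j _ => ?_
    rcases (f j).2 with h | h
    · rw [h]; exact isIntegral_one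
    · exact hR _ h
  let c : (L →+* ℂ) → ℝ := fun τ => if τ ∈ T then Λ ^ D else 1
  have hc : ∀ τ : L →+* ℂ, ∀ i, ‖τ (b i)‖ ≤ c τ := by
    intro τ i
    obtain ⟨f, hf⟩ := hprod i
    rw [hf, map_prod, norm_prod]
    show _ ≤ if τ ∈ T then Λ ^ D else 1
    split_ifs with h
    · calc ∏ j, ‖τ (f j : L)‖ ≤ ∏ _j : Fin D, Λ := by
            refine Finset.prod_le_prod (fun j _ => norm_nonneg _) fun j _ => ?_
            rcases (f j).2 with h | h
            · rw [h, map_one, norm_one]; exact hΛ
            · exact hin τ _ h
        _ = Λ ^ D := by rw [Finset.prod_const, Finset.card_univ, Fintype.card_fin]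
    · calc ∏ j, ‖τ (f j : L)‖ ≤ ∏ _j : Fin D, (1 : ℝ) := by
            refine Finset.prod_le_prod (fun j _ => norm_nonneg _) fun j _ => ?_
            rcases (f j).2 with h' | h'
            · rw [h', map_one, norm_one]
            · exact hout τ h _ h'
        _ = 1 := by rw [Finset.prod_const_one]
  -- the integral basis of `E`
  let w := integralBasis E
  have hwint : ∀ i, IsIntegral ℤ (w i) := by
    intro i
    show IsIntegral ℤ (integralBasis E i)
    rw [integralBasis_apply]
    exact RingOfIntegers.isIntegral_coe _
  have hbw : ∀ ij, IsIntegral ℤ (w.smulTower b ij) := by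
    intro ij
    rw [Basis.smulTower_apply, Algebra.smul_def]
    exact ((hwint _).map (algebraMap E L).toIntAlgHom).mul (hbint _)
  have h1 := discr_le_basis (w.smulTower b) hbw
  have h2 := discr_prod_le w b c hc
  have hwd : ((Algebra.discr ℚ w : ℚ) : ℝ) = (discr E : ℝ) := by
    rw [← coe_discr]
    simp
  rw [hwd] at h2
  have h3 : |(discr L : ℝ)| ≤ |((Algebra.discr ℚ (w.smulTower b) : ℚ) : ℝ)| := by
    have : (((|(discr L : ℚ)| : ℚ)) : ℝ) ≤
        ((|Algebra.discr ℚ (w.smulTower b)| : ℚ) : ℝ) := by exact_mod_cast h1
    rw [Rat.cast_abs, Rat.cast_abs] at this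
    simpa using this
  have h4 : ∏ τ : L →+* ℂ, c τ ^ 2 = Λ ^ (2 * (D * T.card)) := by
    have : ∀ τ : L →+* ℂ, c τ ^ 2 = if τ ∈ T then (Λ ^ D) ^ 2 else 1 := by
      intro τ
      show (if τ ∈ T then Λ ^ D else 1) ^ 2 = _
      split_ifs <;> simp
    rw [Finset.prod_congr rfl fun τ _ => this τ, Finset.prod_ite_mem, Finset.univ_inter,
      Finset.prod_const]
    ring
  rw [h4] at h2
  exact h3.trans h2

end Pool.Agent.Q226.DF
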