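import Mathlib
import Pool.Agent.Q226.DF.Main
import Pool.Agent.Q226.DF.RelGen

/-!
# Relative discriminants and eigenvalues
-/

set_option autoImplicit false

open Finset Polynomial Module NumberField
open Pool.Agent.H225R3.Marg (emb card_over)

namespace Pool.Agent.Q226.DF

/-- **Small eigenvalues force small relative discriminants.** `A` is an invertible matrix over the
integers of `k`, its eigenvalues have absolute value at most `1` under the embeddings outside `S`, at
most `Λ` under those in `S`, and one of them is larger than `1`. Then the field `F` generated by the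
coefficients of the characteristic polynomial has index at most `|S|` and small discriminant relative
to all its subfields. -/
theorem main_rel (k : Type) [Field k] [NumberField k] (n : ℕ) (S : Finset (k →+* ℂ))
    (A : Matrix (Fin n) (Fin n) (𝓞 k)) (Λ : ℝ) (hΛ : 1 ≤ Λ)
    (hout : ∀ σ : k →+* ℂ, σ ∉ S → ∀ l : ℂ, ((emb σ).mapMatrix A).charpoly.IsRoot l → ‖l‖ ≤ 1)
    (hin : ∀ σ ∈ S, ∀ l : ℂ, ((emb σ).mapMatrix A).charpoly.IsRoot l → ‖l‖ ≤ Λ)
    (hbig : ∃ σ ∈ S, ∃ l : ℂ, ((emb σ).mapMatrix A).charpoly.IsRoot l ∧ 1 < ‖l‖) :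
    ∃ F : IntermediateField ℚ k, finrank F k ≤ S.card ∧ ∀ E : IntermediateField ℚ F,
      |(discr F : ℝ)| ≤ |(discr E : ℝ)| ^ finrank E F *
        (((n.factorial : ℝ) * finrank E F) ^ finrank ℚ F *
          Λ ^ (2 * (S.card * n.factorial) * finrank E F)) := by
  classical
  obtain ⟨P, hP⟩ : ∃ P : k[X], P = A.charpoly.map (algebraMap (𝓞 k) k) := ⟨_, rfl⟩
  have hPm : P.Monic := by rw [hP]; exact A.charpoly_monic.map _
  have hPn : P.natDegree = n := by
    rw [hP, A.charpoly_monic.natDegree_map, Matrix.charpoly_natDegree_eq_dim, Fintype.card_fin]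
  obtain ⟨F, hF⟩ : ∃ F : IntermediateField ℚ k,
    F = IntermediateField.adjoin ℚ (P.coeffs : Set k) := ⟨_, rfl⟩
  have hlift : P ∈ Polynomial.lifts (algebraMap F k) := by
    rw [Polynomial.lifts_iff_coeff_lifts]
    intro i
    by_cases hi : P.coeff i = 0
    · rw [hi]; exact ⟨0, map_zero _⟩
    · refine ⟨⟨P.coeff i, ?_⟩, rfl⟩
      rw [hF]
      exact IntermediateField.subset_adjoin _ _ (Polynomial.coeff_mem_coeffs hi)
  obtain ⟨p, hp, hpn, hpm⟩ := Polynomial.lifts_and_natDegree_eq_and_monic hlift hPm
  rw [hPn] at hpn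
  have hFF : NumberField F := inferInstance
  have hL : NumberField p.SplittingField := NumberField.of_module_finite F p.SplittingField
  have hgen := adjoin_roots P F hF p hpm hp
  -- the conjugate polynomials
  have hconj : ∀ σ : k →+* ℂ, ((emb σ).mapMatrix A).charpoly =
      p.map (σ.comp (algebraMap F k)) := by
    intro σ
    have h1 : ((emb σ).mapMatrix A).charpoly = A.charpoly.map (emb σ) := by
      rw [← Matrix.charpoly_map]; rfl
    rw [h1, ← Polynomial.map_map, hp, hP, Polynomial.map_map]
    rfl
  have hroot : ∀ (τ : p.SplittingField →+* ℂ) (σ : k →+* ℂ),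
      σ.comp (algebraMap F k) = τ.comp (algebraMap F p.SplittingField) →
      ∀ x ∈ p.rootSet p.SplittingField, ((emb σ).mapMatrix A).charpoly.IsRoot (τ x) := by
    intro τ σ h x hx
    rw [hconj, h, ← Polynomial.map_map, IsRoot, eval_map, eval₂_hom]
    rw [mem_rootSet] at hx
    rw [eval_map_algebraMap, hx.2, map_zero]
  have hlift2 : ∀ φ : F →+* ℂ, ∃ σ : k →+* ℂ, σ.comp (algebraMap F k) = φ := fun φ =>
    ⟨NumberField.ComplexEmbedding.lift k φ, NumberField.ComplexEmbedding.lift_comp_algebraMap k φ⟩
  -- the noncompact embeddings of `F`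
  let TF : Finset (F →+* ℂ) := Finset.univ.filter
    fun φ => ∀ σ : k →+* ℂ, σ.comp (algebraMap F k) = φ → σ ∈ S
  have hTF : TF.card * finrank F k ≤ S.card := by
    rw [← card_over TF]
    refine Finset.card_le_card fun σ hσ => ?_
    rw [Finset.mem_filter] at hσ
    exact (Finset.mem_filter.1 hσ.2).2 σ rfl
  have hTF0 : 0 < TF.card := by
    obtain ⟨σ, hσ, l, hl, hl1⟩ := hbig
    refine Finset.card_pos.2 ⟨σ.comp (algebraMap F k), ?_⟩
    refine Finset.mem_filter.2 ⟨Finset.mem_univ _, fun σ' hσ' => ?_⟩
    by_contra hcon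
    have := hout σ' hcon l (by rw [hconj, hσ', ← hconj]; exact hl)
    exact absurd this (not_le.2 hl1)
  have hidx : finrank F k ≤ S.card :=
    le_trans (Nat.le_mul_of_pos_left _ hTF0) hTF
  have hTFs : TF.card ≤ S.card :=
    le_trans (Nat.le_mul_of_pos_right _ finrank_pos) hTF
  -- the noncompact embeddings of `L`
  let T : Finset (p.SplittingField →+* ℂ) := Finset.univ.filter
    fun τ => ∃ x ∈ p.rootSet p.SplittingField, 1 < ‖τ x‖
  have hT : T.card ≤ S.card * n.factorial := by
    have h1 : T.card ≤ TF.card * finrank F p.SplittingField := by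
      rw [← card_over TF]
      refine Finset.card_le_card fun τ hτ => ?_
      obtain ⟨x, hx, hx1⟩ := (Finset.mem_filter.1 hτ).2
      refine Finset.mem_filter.2 ⟨Finset.mem_univ _, ?_⟩
      refine Finset.mem_filter.2 ⟨Finset.mem_univ _, fun σ hσ => ?_⟩
      by_contra hcon
      exact absurd (hout σ hcon _ (hroot τ σ hσ x hx)) (not_le.2 hx1)
    have h2 := finrank_splitting F p
    rw [hpn] at h2
    exact h1.trans (Nat.mul_le_mul hTFs h2)
  -- integrality
  have hint : ∀ x ∈ p.rootSet p.SplittingField, IsIntegral ℤ x := by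
    intro x hx
    rw [mem_rootSet] at hx
    by_cases hn : n = 0
    · exfalso
      have h1 : p = 1 := (Polynomial.Monic.natDegree_eq_zero hpm).1 (by rw [hpn, hn])
      have h2 : (aeval x) p = (aeval x) (1 : F[X]) := congrArg _ h1
      rw [hx.2, map_one] at h2
      exact zero_ne_one h2
    refine IsIntegral.of_aeval_monic_of_isIntegral_coeff (p := p.map (algebraMap F p.SplittingField))
      (hpm.map _) ?_ ?_ ?_
    · rw [hpm.natDegree_map, hpn]; exact hn
    · rw [eval_map_algebraMap, hx.2]; exact isIntegral_zero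
    · intro i
      rw [coeff_map]
      refine IsIntegral.map (algebraMap F p.SplittingField).toIntAlgHom ?_
      have h3 : IsIntegral ℤ (algebraMap F k (p.coeff i)) := by
        rw [← coeff_map, hp, hP, coeff_map]
        exact RingOfIntegers.isIntegral_coe _
      exact (isIntegral_algHom_iff (algebraMap F k).toIntAlgHom
        (algebraMap F k).injective).1 h3
  have hΛ' : ∀ τ : p.SplittingField →+* ℂ, ∀ x ∈ p.rootSet p.SplittingField, ‖τ x‖ ≤ Λ := by
    intro τ x hx
    obtain ⟨σ, hσ⟩ := hlift2 (τ.comp (algebraMap F p.SplittingField))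
    have h1 := hroot τ σ hσ x hx
    by_cases h : σ ∈ S
    · exact hin σ h _ h1
    · exact (hout σ h _ h1).trans hΛ
  refine ⟨F, hidx, fun E => ?_⟩
  have h1 := discr_le_rel E (p.rootSet p.SplittingField) hint hgen T Λ hΛ hΛ' (by
    intro τ hτ x hx
    by_contra hcon
    exact hτ (Finset.mem_filter.2 ⟨Finset.mem_univ _, x, hx, not_le.1 hcon⟩))
  have h2 := discr_pow_le F p.SplittingField
  have hg0 : finrank F p.SplittingField ≠ 0 := finrank_pos.ne'
  have hmul : finrank ℚ F * finrank F p.SplittingField = finrank ℚ p.SplittingField :=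
    finrank_mul_finrank ℚ F p.SplittingField
  have hmul2 : finrank E F * finrank F p.SplittingField = finrank E p.SplittingField :=
    finrank_mul_finrank E F p.SplittingField
  refine le_of_pow_le_pow_left₀ hg0 (by positivity) ?_
  refine (h2.trans h1).trans ?_
  rw [mul_pow, ← pow_mul, hmul2]
  refine mul_le_mul_of_nonneg_left ?_ (by positivity)
  rw [mul_pow, ← pow_mul, hmul, ← pow_mul]
  have h3 : (finrank E p.SplittingField : ℝ) ≤ n.factorial * finrank E F := by
    have h4 := finrank_splitting F p
    rw [hpn] at h4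
    have : finrank E p.SplittingField ≤ n.factorial * finrank E F := by
      rw [← hmul2, mul_comm]
      exact Nat.mul_le_mul_right _ h4
    exact_mod_cast this
  have h5 : Λ ^ (2 * (finrank E p.SplittingField * T.card)) ≤
      Λ ^ (2 * (S.card * n.factorial) * finrank E F * finrank F p.SplittingField) := by
    refine pow_le_pow_right₀ hΛ ?_
    rw [mul_assoc (2 * (S.card * n.factorial)), hmul2, mul_assoc 2, mul_comm (finrank E _)]
    exact Nat.mul_le_mul_left _ (Nat.mul_le_mul_right _ hT)
  exact mul_le_mul (pow_le_pow_left₀ (by positivity) h3 _) h5 (by positivity) (by positivity)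

end Pool.Agent.Q226.DF
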